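import Pool.Agent.Helper11.KS.Sheet
import Pool.Agent.H11ST.Angles
open MeasureTheory Metric Set Filter Topology Real
open scoped ENNReal NNReal

/-!
# KS, row CH6: six points of a circle are joined by five chords of total length `≤ 5 ρ`
-/

namespace H11ST
namespace KS

/-- `n` points of a circle are joined by `n - 1` chords (all except the longest one) -/
theorem net_polygon {x : E2} {ρ : ℝ} (h0 : 0 < ρ) {n : ℕ} (hn : 2 ≤ n) (P : Finset E2)
    (hPc : P.card = n) (hP : ∀ p ∈ P, p ∈ sphere x ρ) :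
    ∃ D, Net x ρ D ((2 * (n - 1) * Real.sin (π / n)) * ρ) ∧ ∀ p ∈ P, p ∈ D := by
  obtain ⟨b, hb1, hb2, hb3⟩ := sorted_angles h0 P hP hPc (by omega)
  have hpi := Real.pi_pos
  have hn0 : (0 : ℝ) < n := by exact_mod_cast (by omega : 0 < n)
  have hn1 : (0 : ℝ) < (n : ℝ) - 1 := by
    have : (2 : ℝ) ≤ n := by exact_mod_cast hn
    linarith
  have hmono : Monotone b := monotone_nat_of_le_succ hb1
  have hb1' : ∀ i, b (i + 1) ≤ b i + 2 * π := by
    intro i
    rw [← hb2 i]
    exact hmono (by omega)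
  -- the largest gap
  have htel : ∀ j m, ∑ i ∈ Finset.range m, (b (j + i + 1) - b (j + i)) = b (j + m) - b j := by
    intro j m
    induction m with
    | zero => simp
    | succ m ih => rw [Finset.sum_range_succ, ih]; ring_nf
  have hgap : ∃ j, 2 * π / n ≤ b (j + 1) - b j := by
    by_contra hcon
    push Not at hcon
    have h1 := htel 0 n
    have h2 := hb2 0
    simp only [zero_add] at h1 h2
    have h3 : ∑ i ∈ Finset.range n, (b (i + 1) - b i) < ∑ _i ∈ Finset.range n, 2 * π / n :=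
      Finset.sum_lt_sum_of_nonempty ⟨0, Finset.mem_range.2 (by omega)⟩ fun i _ => hcon i
    rw [h1, h2, Finset.sum_const, Finset.card_range, nsmul_eq_mul] at h3
    have h4 : (n : ℝ) * (2 * π / n) = 2 * π := by field_simp
    linarith
  obtain ⟨j, hj⟩ := hgap
  obtain ⟨D, hD, hmem⟩ := chord_path (x := x) h0 b hb1 hb1' (j + 1) (n - 1)
  have hbound : ∑ i ∈ Finset.range (n - 1),
      ρ * (2 * Real.sin ((b (j + 1 + i + 1) - b (j + 1 + i)) / 2)) ≤
      (2 * (n - 1) * Real.sin (π / n)) * ρ := by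
    have hcast : ((n - 1 : ℕ) : ℝ) = (n : ℝ) - 1 := by rw [Nat.cast_sub (by omega)]; simp
    have hJ := strictConcaveOn_sin_Icc.concaveOn.le_map_sum (t := Finset.range (n - 1))
      (w := fun _ => 1 / ((n : ℝ) - 1)) (p := fun i => (b (j + 1 + i + 1) - b (j + 1 + i)) / 2)
      (fun i _ => by positivity)
      (by rw [Finset.sum_const, Finset.card_range, nsmul_eq_mul, hcast]; field_simp)
      (fun i _ => ⟨by linarith [hb1 (j + 1 + i)], by linarith [hb1' (j + 1 + i)]⟩)
    simp only [smul_eq_mul] at hJ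
    rw [← Finset.mul_sum, ← Finset.mul_sum, ← Finset.sum_div, htel] at hJ
    have h5 : b (j + 1 + (n - 1)) = b j + 2 * π := by
      rw [← hb2 j]; congr 1; omega
    rw [h5] at hJ
    have h6 : 1 / ((n : ℝ) - 1) * ((b j + 2 * π - b (j + 1)) / 2) ≤ π / n := by
      rw [div_mul_eq_mul_div, one_mul, div_le_div_iff₀ hn1 hn0]
      rw [div_le_iff₀ hn0] at hj
      nlinarith
    have h7 : 0 ≤ 1 / ((n : ℝ) - 1) * ((b j + 2 * π - b (j + 1)) / 2) := by
      have := hb1' j
      have : 0 ≤ (b j + 2 * π - b (j + 1)) / 2 := by linarith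
      positivity
    have h8 : π / n ≤ π / 2 := by
      apply div_le_div_of_nonneg_left hpi.le (by norm_num)
      exact_mod_cast hn
    have h9 : Real.sin (1 / ((n : ℝ) - 1) * ((b j + 2 * π - b (j + 1)) / 2)) ≤
        Real.sin (π / n) :=
      Real.sin_le_sin_of_le_of_le_pi_div_two (by linarith) h8 h6
    have h10 := hJ.trans h9
    rw [div_mul_eq_mul_div, one_mul, div_le_iff₀ hn1] at h10
    rw [← Finset.mul_sum, ← Finset.mul_sum]
    nlinarith
  refine ⟨D, ⟨hD.closed, hD.conn, hD.sub, hD.nonneg.trans hbound,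
    hD.len.trans (ENNReal.ofReal_le_ofReal hbound)⟩, ?_⟩
  intro z hz
  obtain ⟨i, hi1, hi2, rfl⟩ := hb3 (j + 1) z hz
  obtain ⟨k, rfl⟩ := Nat.exists_eq_add_of_le hi1
  exact hmem k (by omega)

/-- Row CH6. -/
theorem ch6 : KS_CH6 := by
  intro ρ hρ P hPc hP
  obtain ⟨D, hD, hmem⟩ := net_polygon (x := (0 : E2)) hρ (n := 6) (by norm_num) P hPc
    (fun p hp => by rw [mem_sphere_zero_iff_norm]; exact hP p hp)
  refine ⟨D, (isCompact_closedBall (0 : E2) ρ).of_isClosed_subset hD.closed hD.sub, hD.conn, hmem,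
    hD.sub, ?_⟩
  refine hD.len.trans (ENNReal.ofReal_le_ofReal ?_)
  have h : Real.sin (π / (6 : ℕ)) = 1 / 2 := by
    push_cast
    exact Real.sin_pi_div_six
  rw [h]
  push_cast
  linarith

end KS
end H11ST
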